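import Pool.Agent.helper91.Sz.B2

/-! Module SZ-C2: the chain map, outer part (star shaped faces). -/

open scoped symmDiff

namespace Pool.Agent.helper20.Sz
namespace C2

section star
variable {X E : Type} [DecidableEq X] [Finite E] {K : Cube X E}

/-- a star shaped set of arcs at `v`: heads in an invariant region, tails on pairwise different
circles outside of the region -/
theorem star (hK : K.IsCore) (Q : Finset X) : ∀ (v : Finset X) (S : E → Prop)
    (_ : ∀ x y, K.same v x y → (S x ↔ S y)) (_ : ∀ g ∈ Q, S (K.head g))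
    (_ : ∀ g ∈ Q, ¬ S (K.tail g))
    (_ : ∀ g ∈ Q, ∀ g' ∈ Q, g ≠ g' → ¬ K.same v (K.tail g) (K.tail g')),
    K.Mrg v Q ∧ ∀ x y, S x → S y → K.same (v ∆ Q) x y → K.same v x y := by
  induction Q using Finset.induction_on with
  | empty =>
    intro v S _ _ _ _
    have h0 : v ∆ (∅ : Finset X) = v := symmDiff_bot v
    refine ⟨?_, ?_⟩
    · unfold Cube.Mrg; rw [h0]; simp
    · rw [h0]; intro x y _ _ h; exact h
  | insert g Q hg ih =>
    intro v S hS hh ht hd
    have hgm : g ∈ insert g Q := Finset.mem_insert_self _ _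
    have hnl : ¬ K.Loop v g := fun h => ht g hgm ((hS _ _ h).2 (hh g hgm))
    have hm := hK.merge v g hnl
    have hQm : ∀ c ∈ Q, c ∈ insert g Q := fun c hc => Finset.mem_insert_of_mem hc
    have hne : ∀ c ∈ Q, c ≠ g := fun c hc h => hg (h ▸ hc)
    obtain ⟨h1, h2⟩ := ih (v ∆ {g}) (fun x => S x ∨ K.same v x (K.tail g)) (by
        intro x y hxy
        have key : ∀ x y, K.same (v ∆ {g}) x y → (S x ∨ K.same v x (K.tail g)) →
            (S y ∨ K.same v y (K.tail g)) := by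
          intro x y hxy hx
          rcases (hm x y).1 hxy with h | ⟨h, h'⟩ | ⟨h, h'⟩
          · rcases hx with hx | hx
            · exact Or.inl ((hS _ _ h).1 hx)
            · exact Or.inr (B1.trans hK (B1.symm hK h) hx)
          · exact Or.inl ((hS _ _ h').1 (hh g hgm))
          · exact Or.inr (B1.symm hK h')
        exact ⟨key x y hxy, key y x (B1.symm hK hxy)⟩)
      (fun c hc => Or.inl (hh c (hQm c hc)))
      (fun c hc h => by
        rcases h with h | h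
        · exact ht c (hQm c hc) h
        · exact hd c (hQm c hc) g hgm (hne c hc) h)
      (fun c hc c' hc' hcc h => by
        rcases (hm _ _).1 h with h | ⟨h, h'⟩ | ⟨h, h'⟩
        · exact hd c (hQm c hc) c' (hQm c' hc') hcc h
        · exact hd c (hQm c hc) g hgm (hne c hc) h
        · exact ht c (hQm c hc) ((hS _ _ h).2 (hh g hgm)))
    rw [B1.sd_insert v Q hg]
    refine ⟨?_, ?_⟩
    · rw [B1.mrg_iff hK (H := {g}) (by simp)]
      have h3 : insert g Q \ {g} = Q := by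
        rw [Finset.sdiff_singleton_eq_erase, Finset.erase_insert hg]
      rw [h3]
      exact ⟨(B1.mrg_single hK).2 hnl, h1⟩
    · intro x y hx hy hxy
      rcases (hm x y).1 (h2 x y (Or.inl hx) (Or.inl hy) hxy) with h | ⟨h, h'⟩ | ⟨h, h'⟩
      · exact h
      · exact absurd ((hS _ _ h).1 hx) (ht g hgm)
      · exact absurd ((hS _ _ h').2 hy) (ht g hgm)

/-- in a forest at `v` two arcs do not join the same two circles -/
theorem mrg_two (hK : K.IsCore) {v Q : Finset X} (h : K.Mrg v Q) {g g' : X} (hg : g ∈ Q)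
    (hg' : g' ∈ Q) (hne : g ≠ g') (h1 : K.same v (K.tail g) (K.tail g'))
    (h2 : K.same v (K.head g) (K.head g')) : False := by
  have h3 := (B1.mrg_iff hK (H := {g}) (G := Q) (by simpa using hg)).1 h
  have h4 : g' ∈ Q \ {g} := by
    simp only [Finset.mem_sdiff, Finset.mem_singleton]; exact ⟨hg', fun h => hne h.symm⟩
  have h5 := (B1.mrg_loop hK h3.2 g' h4).1
  apply h5
  have hnl := (B1.mrg_single hK).1 h3.1
  exact (hK.merge v g hnl _ _).2 (Or.inr (Or.inl ⟨B1.symm hK h1, h2⟩))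

/-- the star condition at the states `v`, `w` with labels `s` before and `β` after -/
def StarC (K : Cube X E) (v w : Finset X) (s β : E → Bool) (T : Finset X) : Prop :=
  ∃ z : E, s z = true ∧
    (∀ x, s x ≠ β x ↔ (K.same v x z ∧ K.same w x z)) ∧
    (∀ g ∈ T, K.same v (K.head g) z ∧ K.same w (K.head g) z ∧
      ((¬ K.same v (K.tail g) z ∧ K.same w (K.tail g) z ∧ s (K.tail g) = false) ∨
        (K.same v (K.tail g) z ∧ ¬ K.same w (K.tail g) z ∧ β (K.tail g) = true))) ∧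
    (∀ g ∈ T, ∀ g' ∈ T, g ≠ g' →
      (¬ K.same v (K.tail g) z → ¬ K.same v (K.tail g') z → ¬ K.same v (K.tail g) (K.tail g')) ∧
      (¬ K.same w (K.tail g) z → ¬ K.same w (K.tail g') z → ¬ K.same w (K.tail g) (K.tail g')))

/-- the part of the conditions on the left side which is not about the order -/
structure LC (K : Cube X E) (v Q Ps F' : Finset X) (s β : E → Bool) (R : E → E → Prop) : Prop where
  ps : ∀ c ∈ Ps, s (K.tail c) = false ∧ s (K.head c) = true ∧ β (K.head c) = false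
  q : ∀ c ∈ Q, β (K.head c) = false ∧ β (K.tail c) = true
  num : K.num (((v ∆ Q) ∆ Ps) ∆ F') + Ps.card = K.num ((v ∆ Q) ∆ F')
  single : ∀ x y, s x = true → s y = true → R x y → K.same ((v ∆ Q) ∆ F') x y
  spl : K.Spl v Q
  spl' : K.Spl (v ∆ Q) F'

/-- the part of the conditions on the right side which is not about the order -/
structure RC (K : Cube X E) (v Q Ps F' : Finset X) (s β : E → Bool) (R : E → E → Prop) : Prop where
  inv : ∀ x y, K.same ((v ∆ Q) ∆ Ps) x y → β x = β y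
  star : StarC K v ((v ∆ Q) ∆ Ps) s β (Q ∪ Ps)
  single : ∀ x y, β x = true → R x y → K.same (((v ∆ Q) ∆ Ps) ∆ F') x y
  spl : K.Spl ((v ∆ Q) ∆ Ps) F'

theorem core1 (hK : K.IsCore) (v Q Ps F' : Finset X) (s β : E → Bool)
    (hs : ∀ x y, K.same v x y → s x = s y)
    (hsβ : ∀ x, s x = false → β x = false)
    (hF' : ∀ c ∈ F', β (K.tail c) = true ∧ β (K.head c) = true)
    (hQ : ∀ c ∈ Q, s (K.tail c) = true ∧ s (K.head c) = true)
    (hu : ∀ x y, K.same (((v ∆ Q) ∆ Ps) ∆ F') x y → β x = β y)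
    (z0 : E) (hz0 : s z0 = true) (hz0' : β z0 = false)
    (R : E → E → Prop) (hR : ∀ x y, R x y → β x = β y)
    (hRN : ∀ x y, β x = false → β y = false → R x y)
    (h : LC K v Q Ps F' s β R) : RC K v Q Ps F' s β R := by
  have hβs : ∀ x, β x = true → s x = true := by
    intro x hx
    by_contra h'
    rw [hsβ x (by simpa using h')] at hx
    exact absurd hx (by simp)
  have hPsβ : ∀ c ∈ Ps, β (K.tail c) = false ∧ β (K.head c) = false :=
    fun c hc => ⟨hsβ _ (h.ps c hc).1, (h.ps c hc).2.2⟩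
  have βw : ∀ x y, K.same ((v ∆ Q) ∆ Ps) x y → β x = β y := by
    have := B1.inv_flip hK β _ F' hu (fun c hc => by rw [(hF' c hc).1, (hF' c hc).2])
    rwa [B1.sd_cancel] at this
  have βv1 : ∀ x y, K.same (v ∆ Q) x y → β x = β y := by
    have := B1.inv_flip hK β _ Ps βw (fun c hc => by rw [(hPsβ c hc).1, (hPsβ c hc).2])
    rwa [B1.sd_cancel] at this
  have sv1 : ∀ x y, K.same (v ∆ Q) x y → s x = s y :=
    B1.inv_flip hK s _ Q hs (fun c hc => by rw [(hQ c hc).1, (hQ c hc).2])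
  have hln := B2.local_num hK (v := v ∆ Q) (F := Ps) (G := F') (s := β) false βv1 hPsβ hF'
  have hM : K.Mrg (v ∆ Q) Ps := by
    have h1 := h.num
    unfold Cube.Mrg; omega
  have hM' : K.Mrg ((v ∆ Q) ∆ F') Ps := by
    have h1 := h.num
    unfold Cube.Mrg
    rw [symmDiff_right_comm (v ∆ Q) F' Ps]; omega
  have hS' : K.Spl ((v ∆ Q) ∆ Ps) F' := by
    have h1 := h.num
    have h2 := h.spl'
    unfold Cube.Spl at h2 ⊢; omega
  have hMQ : K.Mrg (v ∆ Q) Q := by
    have h1 := h.spl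
    unfold Cube.Spl at h1
    unfold Cube.Mrg
    rw [B1.sd_cancel]; omega
  have n0 : ∀ x y, s x = true → β x = false → s y = true → β y = false →
      K.same ((v ∆ Q) ∆ F') x y := fun x y h1 h2 h3 h4 => h.single x y h1 h3 (hRN x y h2 h4)
  have n1 : ∀ x y, s x = true → β x = false → s y = true → β y = false →
      K.same (v ∆ Q) x y := fun x y h1 h2 h3 h4 => B1.spl_finer hK h.spl' x y (n0 x y h1 h2 h3 h4)
  have n2 : ∀ x y, s x = true → β x = false → s y = true → β y = false →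
      K.same v x y := fun x y h1 h2 h3 h4 => B1.spl_finer hK h.spl x y (n1 x y h1 h2 h3 h4)
  have n3 : ∀ x y, s x = true → β x = false → s y = true → β y = false →
      K.same ((v ∆ Q) ∆ Ps) x y := fun x y h1 h2 h3 h4 =>
    B1.mrg_coarser hK hM x y (n1 x y h1 h2 h3 h4)
  have a1 : ∀ g ∈ Q, K.same v (K.head g) z0 ∧ K.same ((v ∆ Q) ∆ Ps) (K.head g) z0 ∧
      K.same v (K.tail g) z0 ∧ ¬ K.same ((v ∆ Q) ∆ Ps) (K.tail g) z0 ∧ β (K.tail g) = true := by
    intro g hg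
    have h1 := n2 _ _ (hQ g hg).2 (h.q g hg).1 hz0 hz0'
    refine ⟨h1, n3 _ _ (hQ g hg).2 (h.q g hg).1 hz0 hz0', ?_, ?_, (h.q g hg).2⟩
    · exact B1.trans hK (B1.spl_loop hK h.spl g hg).1 h1
    · intro h'
      have := βw _ _ h'
      rw [(h.q g hg).2, hz0'] at this
      exact absurd this (by simp)
  have a2 : ∀ g ∈ Ps, K.same v (K.head g) z0 ∧ K.same ((v ∆ Q) ∆ Ps) (K.head g) z0 ∧
      ¬ K.same v (K.tail g) z0 ∧ K.same ((v ∆ Q) ∆ Ps) (K.tail g) z0 ∧ s (K.tail g) = false := by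
    intro g hg
    have h1 := n3 _ _ (h.ps g hg).2.1 (h.ps g hg).2.2 hz0 hz0'
    refine ⟨n2 _ _ (h.ps g hg).2.1 (h.ps g hg).2.2 hz0 hz0', h1, ?_, ?_, (h.ps g hg).1⟩
    · intro h'
      have := hs _ _ h'
      rw [(h.ps g hg).1, hz0] at this
      exact absurd this (by simp)
    · exact B1.trans hK (B1.mrg_loop hK hM g hg).2 h1
  refine ⟨βw, ⟨z0, hz0, ?_, ?_, ?_⟩, ?_, hS'⟩
  · intro x
    constructor
    · intro hx
      have h1 : s x = true := by
        by_contra h'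
        have h'' : s x = false := by simpa using h'
        exact hx (by rw [h'', hsβ x h''])
      have h2 : β x = false := by
        by_contra h'
        exact hx (by rw [h1]; symm; simpa using h')
      exact ⟨n2 _ _ h1 h2 hz0 hz0', n3 _ _ h1 h2 hz0 hz0'⟩
    · rintro ⟨h1, h2⟩
      rw [hs _ _ h1, βw _ _ h2, hz0, hz0']; simp
  · intro g hg
    rcases Finset.mem_union.1 hg with hg | hg
    · obtain ⟨b1, b2, b3, b4, b5⟩ := a1 g hg
      exact ⟨b1, b2, Or.inr ⟨b3, b4, b5⟩⟩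
    · obtain ⟨b1, b2, b3, b4, b5⟩ := a2 g hg
      exact ⟨b1, b2, Or.inl ⟨b3, b4, b5⟩⟩
  · intro g hg g' hg' hne
    constructor
    · intro h1 h2 h3
      have hg1 : g ∈ Ps := by
        rcases Finset.mem_union.1 hg with hg | hg
        · exact absurd (a1 g hg).2.2.1 h1
        · exact hg
      have hg2 : g' ∈ Ps := by
        rcases Finset.mem_union.1 hg' with hg' | hg'
        · exact absurd (a1 g' hg').2.2.1 h2
        · exact hg'
      have h4 : K.same (v ∆ Q) (K.tail g) (K.tail g') :=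
        (B2.local_same hK (v := v) (F := Q) (s := s) true hs hQ _ _ (by
          rw [(h.ps g hg1).1]; rfl)).2 h3
      exact mrg_two hK hM hg1 hg2 hne h4 (n1 _ _ (h.ps g hg1).2.1 (h.ps g hg1).2.2
        (h.ps g' hg2).2.1 (h.ps g' hg2).2.2)
    · intro h1 h2 h3
      have hg1 : g ∈ Q := by
        rcases Finset.mem_union.1 hg with hg | hg
        · exact hg
        · exact absurd (a2 g hg).2.2.2.1 h1
      have hg2 : g' ∈ Q := by
        rcases Finset.mem_union.1 hg' with hg' | hg'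
        · exact hg'
        · exact absurd (a2 g' hg').2.2.2.1 h2
      have h4 : K.same (v ∆ Q) (K.tail g) (K.tail g') :=
        (B2.local_same hK (v := v ∆ Q) (F := Ps) (s := β) false βv1 hPsβ _ _ (by
          rw [(h.q g hg1).2]; rfl)).1 h3
      exact mrg_two hK hMQ hg1 hg2 hne h4 (n1 _ _ (hQ g hg1).2 (h.q g hg1).1
        (hQ g' hg2).2 (h.q g' hg2).1)
  · intro x y hx hxy
    have h1 := h.single x y (hβs x hx) (hβs y (by rw [← hR x y hxy]; exact hx)) hxy
    have h2 := B1.mrg_coarser hK hM' x y h1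
    rwa [symmDiff_right_comm (v ∆ Q) F' Ps] at h2

theorem core2 (hK : K.IsCore) (v Q Ps F' : Finset X) (s β : E → Bool)
    (hs : ∀ x y, K.same v x y → s x = s y)
    (hsβ : ∀ x, s x = false → β x = false)
    (hF' : ∀ c ∈ F', β (K.tail c) = true ∧ β (K.head c) = true)
    (hPs : ∀ c ∈ Ps, s (K.tail c) = false ∨ s (K.head c) = false)
    (hQ : ∀ c ∈ Q, s (K.tail c) = true ∧ s (K.head c) = true)
    (R : E → E → Prop) (hR : ∀ x y, R x y → β x = β y)
    (h : RC K v Q Ps F' s β R) : LC K v Q Ps F' s β R := by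
  obtain ⟨z, hz, hz3, h4, h5⟩ := h.star
  have hzβ : β z = false := by
    have := (hz3 z).2 ⟨B1.refl hK _ _, B1.refl hK _ _⟩
    rw [hz] at this
    by_contra h'
    exact this (by symm; simpa using h')
  have hβs : ∀ x, β x = true → s x = true := by
    intro x hx
    by_contra h'
    rw [hsβ x (by simpa using h')] at hx
    exact absurd hx (by simp)
  have hps : ∀ c ∈ Ps, s (K.tail c) = false ∧ s (K.head c) = true ∧ β (K.head c) = false := by
    intro c hc
    obtain ⟨b1, b2, _⟩ := h4 c (Finset.mem_union_right _ hc)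
    have e1 := hs _ _ b1
    have e2 := h.inv _ _ b2
    rw [hz] at e1
    rw [hzβ] at e2
    refine ⟨?_, e1, e2⟩
    rcases hPs c hc with h' | h'
    · exact h'
    · rw [e1] at h'; exact absurd h' (by simp)
  have hq : ∀ c ∈ Q, β (K.head c) = false ∧ β (K.tail c) = true := by
    intro c hc
    obtain ⟨b1, b2, b3⟩ := h4 c (Finset.mem_union_left _ hc)
    have e2 := h.inv _ _ b2
    rw [hzβ] at e2
    refine ⟨e2, ?_⟩
    rcases b3 with ⟨_, _, h'⟩ | ⟨_, _, h'⟩
    · rw [(hQ c hc).1] at h'; exact absurd h' (by simp)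
    · exact h'
  have hPsβ : ∀ c ∈ Ps, β (K.tail c) = false ∧ β (K.head c) = false :=
    fun c hc => ⟨hsβ _ (hps c hc).1, (hps c hc).2.2⟩
  have βv1 : ∀ x y, K.same (v ∆ Q) x y → β x = β y := by
    have := B1.inv_flip hK β _ Ps h.inv (fun c hc => by rw [(hPsβ c hc).1, (hPsβ c hc).2])
    rwa [B1.sd_cancel] at this
  have βw0 : ∀ x y, K.same ((v ∆ Q) ∆ F') x y → β x = β y :=
    B1.inv_flip hK β _ F' βv1 (fun c hc => by rw [(hF' c hc).1, (hF' c hc).2])
  have sv1 : ∀ x y, K.same (v ∆ Q) x y → s x = s y :=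
    B1.inv_flip hK s _ Q hs (fun c hc => by rw [(hQ c hc).1, (hQ c hc).2])
  have hln := B2.local_num hK (v := v ∆ Q) (F := Ps) (G := F') (s := β) false βv1 hPsβ hF'
  obtain ⟨hMQ, -⟩ := star hK Q (v ∆ Q) (fun x => β x = false)
    (fun x y hxy => by rw [βv1 x y hxy]) (fun g hg => (hq g hg).1)
    (fun g hg h' => by rw [(hq g hg).2] at h'; exact absurd h' (by simp))
    (fun g hg g' hg' hne h' => by
      have h6 : K.same ((v ∆ Q) ∆ Ps) (K.tail g) (K.tail g') :=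
        (B2.local_same hK (v := v ∆ Q) (F := Ps) (s := β) false βv1 hPsβ _ _ (by
          rw [(hq g hg).2]; rfl)).2 h'
      refine (h5 g (Finset.mem_union_left _ hg) g' (Finset.mem_union_left _ hg') hne).2 ?_ ?_ h6
      · intro h7
        have := h.inv _ _ h7
        rw [(hq g hg).2, hzβ] at this
        exact absurd this (by simp)
      · intro h7
        have := h.inv _ _ h7
        rw [(hq g' hg').2, hzβ] at this
        exact absurd this (by simp))
  obtain ⟨hM, hMs⟩ := star hK Ps (v ∆ Q) (fun x => s x = true)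
    (fun x y hxy => by rw [sv1 x y hxy]) (fun g hg => (hps g hg).2.1)
    (fun g hg h' => by rw [(hps g hg).1] at h'; exact absurd h' (by simp))
    (fun g hg g' hg' hne h' => by
      have h6 : K.same v (K.tail g) (K.tail g') :=
        (B2.local_same hK (v := v) (F := Q) (s := s) true hs hQ _ _ (by
          rw [(hps g hg).1]; rfl)).1 h'
      refine (h5 g (Finset.mem_union_right _ hg) g' (Finset.mem_union_right _ hg') hne).1 ?_ ?_ h6
      · intro h7
        have := hs _ _ h7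
        rw [(hps g hg).1, hz] at this
        exact absurd this (by simp)
      · intro h7
        have := hs _ _ h7
        rw [(hps g' hg').1, hz] at this
        exact absurd this (by simp))
  have hspl := h.spl
  unfold Cube.Spl at hspl
  have hM1 := hM
  have hMQ1 := hMQ
  unfold Cube.Mrg at hM1 hMQ1
  rw [B1.sd_cancel] at hMQ1
  refine ⟨hps, hq, by omega, ?_, by unfold Cube.Spl; omega, by unfold Cube.Spl; omega⟩
  intro x y hx hy hxy
  rcases hβx : β x with _ | _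
  · have hβy : β y = false := by rw [← hR x y hxy, hβx]
    have h6 := ((hz3 x).1 (by rw [hx, hβx]; simp)).2
    have h7 := ((hz3 y).1 (by rw [hy, hβy]; simp)).2
    have h8 := hMs x y hx hy (B1.trans hK h6 (B1.symm hK h7))
    exact (B2.local_same hK (v := v ∆ Q) (F := F') (s := β) true βv1 hF' _ _ (by
      rw [hβx]; rfl)).2 h8
  · have h6 := h.single x y hβx hxy
    rw [← symmDiff_right_comm (v ∆ Q) F' Ps] at h6
    exact (B2.local_same hK (v := (v ∆ Q) ∆ F') (F := Ps) (s := β) false βw0 hPsβ _ _ (by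
      rw [hβx]; rfl)).1 h6

end star

section swap
variable {X E : Type} [DecidableEq X] {K : Cube X E}

/-- the cube with all arcs reversed -/
def swap (K : Cube X E) : Cube X E := ⟨K.same, K.head, K.tail⟩

theorem swap_core (hK : K.IsCore) : (swap K).IsCore where
  eqv := hK.eqv
  split := fun v c h h' => hK.split v c ((hK.eqv v).symm h) ((hK.eqv _).symm h')
  merge := fun v c h x y => by
    have := hK.merge v c (fun h' => h ((hK.eqv v).symm h')) x y
    refine this.trans ?_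
    show _ ↔ K.same v x y ∨ (K.same v x (K.head c) ∧ K.same v (K.tail c) y) ∨
      (K.same v x (K.tail c) ∧ K.same v (K.head c) y)
    tauto

end swap

section main
variable {X E : Type} [DecidableEq X] [Fintype E] [DecidableEq E] {K : Cube X E}

theorem mem_B0 {𝒟 : Finset (Finset E)} {x : E} : x ∈ B0 𝒟 ↔ ∀ D ∈ 𝒟, x ∈ D := by
  simp [B0]

/-- the three kinds of arcs -/
structure Dat (K : Cube X E) (v u : Finset X) (s : E → Bool) (𝒟 : Finset (Finset E))
    (Q Ps F' : Finset X) : Prop where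
  sub : v ⊆ u
  A0 : ∀ x, s x = false → x ∈ B0 𝒟
  memQ : ∀ c, c ∈ Q ↔ c ∈ u ∧ c ∉ v ∧ s (K.tail c) = true ∧ s (K.head c) = true ∧
    (K.tail c ∈ B0 𝒟 ∨ K.head c ∈ B0 𝒟)
  memP : ∀ c, c ∈ Ps ↔ c ∈ u ∧ c ∉ v ∧ (s (K.tail c) = false ∨ s (K.head c) = false)
  memF : ∀ c, c ∈ F' ↔ c ∈ u ∧ c ∉ v ∧ K.tail c ∉ B0 𝒟 ∧ K.head c ∉ B0 𝒟

/-- heads come before tails for the arcs of `F` -/
def Ord (K : Cube X E) (𝒟 : Finset (Finset E)) (F : Finset X) : Prop :=
  ∀ c ∈ F, ∃ D ∈ 𝒟, K.head c ∈ D ∧ K.tail c ∉ D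

variable {v u : Finset X} {s : E → Bool} {𝒟 : Finset (Finset E)} {Q Ps F' : Finset X}

theorem Dat.disj (h : Dat K v u s 𝒟 Q Ps F') :
    Disjoint v Q ∧ Disjoint v Ps ∧ Disjoint v F' ∧ Disjoint Q Ps ∧ Disjoint Q F' ∧
      Disjoint Ps F' := by
  refine ⟨?_, ?_, ?_, ?_, ?_, ?_⟩ <;> rw [Finset.disjoint_left] <;> intro c h1 h2
  · exact ((h.memQ c).1 h2).2.1 h1
  · exact ((h.memP c).1 h2).2.1 h1
  · exact ((h.memF c).1 h2).2.1 h1
  · obtain ⟨-, -, a1, a2, -⟩ := (h.memQ c).1 h1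
    obtain ⟨-, -, b1 | b1⟩ := (h.memP c).1 h2
    · rw [a1] at b1; exact absurd b1 (by simp)
    · rw [a2] at b1; exact absurd b1 (by simp)
  · obtain ⟨-, -, -, -, a1 | a1⟩ := (h.memQ c).1 h1
    · exact ((h.memF c).1 h2).2.2.1 a1
    · exact ((h.memF c).1 h2).2.2.2 a1
  · obtain ⟨-, -, a1 | a1⟩ := (h.memP c).1 h1
    · exact ((h.memF c).1 h2).2.2.1 (h.A0 _ a1)
    · exact ((h.memF c).1 h2).2.2.2 (h.A0 _ a1)

theorem Dat.cov (h : Dat K v u s 𝒟 Q Ps F') : ∀ c, c ∈ u ↔ c ∈ v ∨ c ∈ Q ∨ c ∈ Ps ∨ c ∈ F' := by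
  intro c
  constructor
  · intro hc
    by_cases h1 : c ∈ v
    · exact Or.inl h1
    by_cases h2 : s (K.tail c) = false ∨ s (K.head c) = false
    · exact Or.inr (Or.inr (Or.inl ((h.memP c).2 ⟨hc, h1, h2⟩)))
    push Not at h2
    by_cases h3 : K.tail c ∈ B0 𝒟 ∨ K.head c ∈ B0 𝒟
    · exact Or.inr (Or.inl ((h.memQ c).2 ⟨hc, h1, by simpa using h2.1, by simpa using h2.2, h3⟩))
    · push Not at h3
      exact Or.inr (Or.inr (Or.inr ((h.memF c).2 ⟨hc, h1, h3.1, h3.2⟩)))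
  · rintro (h1 | h1 | h1 | h1)
    · exact h.sub h1
    · exact ((h.memQ c).1 h1).1
    · exact ((h.memP c).1 h1).1
    · exact ((h.memF c).1 h1).1

theorem sets {v Q Ps F' : Finset X} (h1 : Disjoint v Q) (h2 : Disjoint v Ps) (h3 : Disjoint v F')
    (h4 : Disjoint Q Ps) (h5 : Disjoint Q F') (h6 : Disjoint Ps F')
    (h : ∀ c, c ∈ u ↔ c ∈ v ∨ c ∈ Q ∨ c ∈ Ps ∨ c ∈ F') :
    ((v ∆ Q) ∆ Ps) ∆ F' = u ∧ (v ∆ Q) ∆ F' ⊆ u ∧ u \ ((v ∆ Q) ∆ F') = Ps ∧
      ((v ∆ Q) ∆ F') \ v = Q ∪ F' ∧ v ⊆ (v ∆ Q) ∆ F' ∧ (v ∆ Q) ∆ Ps ⊆ u ∧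
      u \ ((v ∆ Q) ∆ Ps) = F' ∧ ((v ∆ Q) ∆ Ps) \ v = Q ∪ Ps ∧ v ⊆ (v ∆ Q) ∆ Ps ∧
      (∀ c, c ∈ (v ∆ Q) ∆ F' ↔ c ∈ v ∨ c ∈ Q ∨ c ∈ F') ∧
      (∀ c, c ∈ (v ∆ Q) ∆ Ps ↔ c ∈ v ∨ c ∈ Q ∨ c ∈ Ps) := by
  rw [Finset.disjoint_left] at h1 h2 h3 h4 h5 h6
  refine ⟨?_, ?_, ?_, ?_, ?_, ?_, ?_, ?_, ?_, ?_, ?_⟩
  all_goals first | ext c | intro c
  all_goals
    have a1 := @h1 c; have a2 := @h2 c; have a3 := @h3 c; have a4 := @h4 c
    have a5 := @h5 c; have a6 := @h6 c; have a7 := h c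
    clear h1 h2 h3 h4 h5 h6 h
    simp only [Finset.mem_symmDiff, Finset.mem_sdiff, Finset.mem_union, a7]
    clear a7
    by_cases b1 : c ∈ v <;> by_cases b2 : c ∈ Q <;> by_cases b3 : c ∈ Ps <;>
      by_cases b4 : c ∈ F' <;> simp_all

/-- the condition of the terms on the left side -/
def T (K : Cube X E) (P : E) (v : Finset X) (s : E → Bool) (u : Finset X) (𝒟 : Finset (Finset E))
    (w : Finset X) (D : Finset E) : Prop :=
  D ∉ 𝒟 ∧ D ⊂ B0 𝒟 ∧
    (∀ c ∈ u \ w, K.Nsep 𝒟 c ∧ K.tail c ∈ D ∧ K.head c ∉ D) ∧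
    K.num u + (u \ w).card = K.num w ∧ K.Valid w (insert D 𝒟) ∧
    ((P ∈ D ∧ K.Xi0 P v s w (insert D 𝒟)) ∨
      (P ∉ D ∧ K.Xi0 P v s w (rho D (insert D 𝒟))))

/-- labels after -/
def bet (𝒟 : Finset (Finset E)) (x : E) : Bool := decide (x ∉ B0 𝒟)

theorem bet_true {x : E} : bet 𝒟 x = true ↔ x ∉ B0 𝒟 := by simp [bet]
theorem bet_false {x : E} : bet 𝒟 x = false ↔ x ∈ B0 𝒟 := by simp [bet]

/-- not separated -/
def Rel (𝒟 : Finset (Finset E)) (x y : E) : Prop := ∀ D ∈ 𝒟, (x ∈ D ↔ y ∈ D)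

theorem rel_bet {x y : E} (h : Rel 𝒟 x y) : bet 𝒟 x = bet 𝒟 y := by
  have h1 : x ∈ B0 𝒟 ↔ y ∈ B0 𝒟 := by
    rw [mem_B0, mem_B0]
    exact ⟨fun h' D hD => (h D hD).1 (h' D hD), fun h' D hD => (h D hD).2 (h' D hD)⟩
  unfold bet
  simp [h1]

theorem rel_of {x y : E} (hx : bet 𝒟 x = false) (hy : bet 𝒟 y = false) : Rel 𝒟 x y := by
  rw [bet_false, mem_B0] at hx hy
  exact fun D hD => ⟨fun _ => hy D hD, fun _ => hx D hD⟩

theorem mem_rho {D : Finset E} (h1 : D ∉ 𝒟) (h2 : D ⊆ B0 𝒟) (D'' : Finset E) :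
    D'' ∈ rho D (insert D 𝒟) ↔ D'' = Dᶜ ∨ ∃ D' ∈ 𝒟, D'' = D' \ D := by
  unfold rho
  rw [Finset.erase_insert h1, Finset.mem_insert, Finset.mem_image]
  constructor
  · rintro (h | ⟨D', hD', h⟩)
    · exact Or.inl h
    · right
      refine ⟨D', hD', ?_⟩
      rw [← h, rr, if_pos]
      exact fun x hx => mem_B0.1 (h2 hx) D' hD'
  · rintro (h | ⟨D', hD', h⟩)
    · exact Or.inl h
    · right
      refine ⟨D', hD', ?_⟩
      rw [h, rr, if_pos]
      exact fun x hx => mem_B0.1 (h2 hx) D' hD'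

/-- validity after inserting a set contained in the first block -/
theorem valid_ins {w : Finset X} {D : Finset E} (hv : ∀ D' ∈ 𝒟, D'.Nonempty ∧ D' ≠ Finset.univ ∧
      ∀ x y, K.same w x y → (x ∈ D' ↔ y ∈ D'))
    (hc : ∀ D ∈ 𝒟, ∀ D' ∈ 𝒟, D ⊆ D' ∨ D' ⊆ D) (hD : D ⊆ B0 𝒟) (hne : D.Nonempty)
    (htop : D ≠ Finset.univ) (hs : ∀ x y, K.same w x y → (x ∈ D ↔ y ∈ D)) :
    K.Valid w (insert D 𝒟) := by
  have hD' : ∀ D' ∈ 𝒟, D ⊆ D' := fun D' h x hx => mem_B0.1 (hD hx) D' h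
  refine ⟨?_, ?_, ?_, ?_⟩
  · intro D' h
    rcases Finset.mem_insert.1 h with rfl | h
    · exact hne
    · exact (hv D' h).1
  · intro D' h
    rcases Finset.mem_insert.1 h with rfl | h
    · exact htop
    · exact (hv D' h).2.1
  · intro D' h
    rcases Finset.mem_insert.1 h with rfl | h
    · exact hs
    · exact (hv D' h).2.2
  · intro D1 h1 D2 h2
    rcases Finset.mem_insert.1 h1 with e1 | h1 <;> rcases Finset.mem_insert.1 h2 with e2 | h2
    · exact Or.inl (by rw [e1, e2])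
    · exact Or.inl (by rw [e1]; exact hD' _ h2)
    · exact Or.inr (by rw [e2]; exact hD' _ h1)
    · exact hc _ h1 _ h2

theorem w_eq (h : Dat K v u s 𝒟 Q Ps F') {w : Finset X} (h1 : w ⊆ u) (h2 : v ⊆ w)
    (h3 : ∀ c ∈ w \ v, s (K.tail c) = true ∧ s (K.head c) = true)
    (h4 : ∀ c ∈ u \ w, s (K.tail c) = false ∨ s (K.head c) = false) : w = (v ∆ Q) ∆ F' := by
  obtain ⟨d1, d2, d3, d4, d5, d6⟩ := h.disj
  obtain ⟨-, -, -, -, -, -, -, -, -, e6, -⟩ := sets d1 d2 d3 d4 d5 d6 h.cov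
  ext c
  rw [e6]
  constructor
  · intro hc
    rcases (h.cov c).1 (h1 hc) with h' | h' | h' | h'
    · exact Or.inl h'
    · exact Or.inr (Or.inl h')
    · obtain ⟨-, hcv, h''⟩ := (h.memP c).1 h'
      have hl := h3 c (Finset.mem_sdiff.2 ⟨hc, hcv⟩)
      rw [hl.1, hl.2] at h''
      simp at h''
    · exact Or.inr (Or.inr h')
  · rintro (hc | hc | hc)
    · exact h2 hc
    · by_contra hcw
      have h5 := (h.memQ c).1 hc
      have h6 := h4 c (Finset.mem_sdiff.2 ⟨h5.1, hcw⟩)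
      rw [h5.2.2.1, h5.2.2.2.1] at h6
      simp at h6
    · by_contra hcw
      have h5 := (h.memF c).1 hc
      rcases h4 c (Finset.mem_sdiff.2 ⟨h5.1, hcw⟩) with h6 | h6
      · exact h5.2.2.1 (h.A0 _ h6)
      · exact h5.2.2.2 (h.A0 _ h6)

theorem lab_F (h : Dat K v u s 𝒟 Q Ps F') {c : X} (hc : c ∈ F') :
    s (K.tail c) = true ∧ s (K.head c) = true := by
  have h5 := (h.memF c).1 hc
  constructor
  · by_contra h'
    exact h5.2.2.1 (h.A0 _ (by simpa using h'))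
  · by_contra h'
    exact h5.2.2.2 (h.A0 _ (by simpa using h'))

theorem w0facts (hK : K.IsCore) (hs : ∀ x y, K.same v x y → s x = s y)
    (hv : K.Valid u 𝒟) (h : Dat K v u s 𝒟 Q Ps F')
    (hps : ∀ c ∈ Ps, K.tail c ∈ B0 𝒟 ∧ K.head c ∈ B0 𝒟) :
    (∀ x y, K.same ((v ∆ Q) ∆ F') x y → s x = s y) ∧
    (∀ D' ∈ 𝒟, ∀ x y, K.same ((v ∆ Q) ∆ F') x y → (x ∈ D' ↔ y ∈ D')) := by
  obtain ⟨d1, d2, d3, d4, d5, d6⟩ := h.disj
  obtain ⟨e1, -⟩ := sets d1 d2 d3 d4 d5 d6 h.cov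
  constructor
  · refine B1.inv_flip hK s _ F' (B1.inv_flip hK s _ Q hs ?_) ?_
    · intro c hc
      have h5 := (h.memQ c).1 hc
      rw [h5.2.2.1, h5.2.2.2.1]
    · intro c hc
      rw [(lab_F h hc).1, (lab_F h hc).2]
  · intro D' hD'
    have h1 := B1.inv_flip hK (fun x => decide (x ∈ D')) u Ps (fun x y hxy => by
      have := hv.sat D' hD' x y hxy
      simp [this]) (fun c hc => by
        have h1 := mem_B0.1 (hps c hc).1 D' hD'
        have h2 := mem_B0.1 (hps c hc).2 D' hD'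
        simp [h1, h2])
    rw [← e1, ← symmDiff_right_comm (v ∆ Q) F' Ps, B1.sd_cancel] at h1
    intro x y hxy
    have := h1 x y hxy
    simpa using this

theorem optP (hK : K.IsCore) {P : E} (hP : s P = false) (hs : ∀ x y, K.same v x y → s x = s y)
    (hv : K.Valid u 𝒟) (hn : Nrm P 𝒟) (h : Dat K v u s 𝒟 Q Ps F') (z0 : E) (hz0 : s z0 = true)
    (hz0' : z0 ∈ B0 𝒟) (w : Finset X) (hwu : w ⊆ u) (D : Finset E) :
    (T K P v s u 𝒟 w D ∧ P ∈ D) ↔ (w = (v ∆ Q) ∆ F' ∧ D = Finset.univ.filter (fun x => s x = false) ∧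
      LC K v Q Ps F' s (bet 𝒟) (Rel 𝒟) ∧ Ord K 𝒟 F') := by
  obtain ⟨d1, d2, d3, d4, d5, d6⟩ := h.disj
  obtain ⟨e1, e2, e3, e4, e5, -, -, -, -, e6, -⟩ := sets d1 d2 d3 d4 d5 d6 h.cov
  have eQ : (Q ∪ F') \ Q = F' := Finset.union_sdiff_cancel_left d5
  constructor
  · rintro ⟨⟨h1, h2, h3, h4, h5, h6⟩, h7⟩
    have hX : K.Xi0 P v s w (insert D 𝒟) := by
      rcases h6 with h6 | h6
      · exact h6.2
      · exact absurd h7 h6.1
    have hD : D = Finset.univ.filter (fun x => s x = false) := by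
      ext x
      simp only [Finset.mem_filter, Finset.mem_univ, true_and]
      rw [hX.first]
      constructor
      · intro hx D' hD'
        rcases Finset.mem_insert.1 hD' with rfl | hD'
        · exact hx
        · exact mem_B0.1 (h2.1 hx) D' hD'
      · intro hx; exact hx D (Finset.mem_insert_self _ _)
    have hDm : ∀ x, x ∈ D ↔ s x = false := by intro x; rw [hD]; simp
    have hw : w = (v ∆ Q) ∆ F' := w_eq h hwu hX.sub hX.lab
      (fun c hc => Or.inl ((hDm _).1 (h3 c hc).2.1))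
    subst hw
    rw [e3] at h3 h4
    refine ⟨rfl, hD, ⟨?_, ?_, ?_, ?_, ?_, ?_⟩, ?_⟩
    · intro c hc
      obtain ⟨a1, a2, a3⟩ := h3 c hc
      refine ⟨(hDm _).1 a2, ?_, ?_⟩
      · rw [hDm] at a3; simpa using a3
      · rw [bet_false, mem_B0]
        exact fun D' hD' => (a1 D' hD').1 (mem_B0.1 (h2.1 a2) D' hD')
    · intro c hc
      obtain ⟨-, -, a1, a2, a3⟩ := (h.memQ c).1 hc
      obtain ⟨D', hD', b1, b2⟩ := hX.ord c (by rw [e4]; exact Finset.mem_union_left _ hc)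
      rcases Finset.mem_insert.1 hD' with rfl | hD'
      · rw [hDm, a2] at b1; exact absurd b1 (by simp)
      · have b3 : K.tail c ∉ B0 𝒟 := fun h' => b2 (mem_B0.1 h' D' hD')
        rw [bet_false, bet_true]
        exact ⟨a3.resolve_left b3, b3⟩
    · rw [e1]; exact h4
    · intro x y hx hy hxy
      refine hX.single x y hx (fun D' hD' => ?_)
      rcases Finset.mem_insert.1 hD' with rfl | hD'
      · rw [hDm, hDm, hx, hy]
      · exact hxy D' hD'
    · have h8 := hX.spl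
      rw [e4] at h8
      exact ((B1.spl_iff hK (H := Q) Finset.subset_union_left).1 h8).1
    · have h8 := hX.spl
      rw [e4] at h8
      have h9 := ((B1.spl_iff hK (H := Q) Finset.subset_union_left).1 h8).2
      rwa [eQ] at h9
    · intro c hc
      obtain ⟨D', hD', b1, b2⟩ := hX.ord c (by rw [e4]; exact Finset.mem_union_right _ hc)
      rcases Finset.mem_insert.1 hD' with rfl | hD'
      · rw [hDm, (lab_F h hc).2] at b1; exact absurd b1 (by simp)
      · exact ⟨D', hD', b1, b2⟩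
  · rintro ⟨rfl, hD, hL, hO⟩
    have hDm : ∀ x, x ∈ D ↔ s x = false := by intro x; rw [hD]; simp
    have hPD : P ∈ D := (hDm _).2 hP
    have hzD : z0 ∉ D := by rw [hDm, hz0]; simp
    have hDB : D ⊆ B0 𝒟 := fun x hx => h.A0 x ((hDm x).1 hx)
    have hPs : ∀ c ∈ Ps, K.tail c ∈ B0 𝒟 ∧ K.head c ∈ B0 𝒟 := fun c hc =>
      ⟨h.A0 _ (hL.ps c hc).1, bet_false.1 (hL.ps c hc).2.2⟩
    obtain ⟨f1, f2⟩ := w0facts hK hs hv h hPs
    have hval : K.Valid ((v ∆ Q) ∆ F') (insert D 𝒟) :=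
      valid_ins (fun D' hD' => ⟨hv.ne D' hD', hv.top D' hD', f2 D' hD'⟩) hv.chain hDB ⟨P, hPD⟩
        (fun h' => hzD (h' ▸ Finset.mem_univ _))
        (fun x y hxy => by rw [hDm, hDm, f1 x y hxy])
    refine ⟨⟨fun h' => hzD (mem_B0.1 hz0' D h'), ⟨hDB, fun h' => hzD (h' hz0')⟩, ?_, ?_, hval,
      Or.inl ⟨hPD, ?_⟩⟩, hPD⟩
    · rw [e3]
      intro c hc
      refine ⟨fun D' hD' => ⟨fun _ => mem_B0.1 (hPs c hc).2 D' hD',
        fun _ => mem_B0.1 (hPs c hc).1 D' hD'⟩, (hDm _).2 (hL.ps c hc).1, ?_⟩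
      rw [hDm, (hL.ps c hc).2.1]; simp
    · rw [e3, ← e1]; rw [e1]; have := hL.num; rw [e1] at this; exact this
    · refine ⟨e5, hval, ?_, ?_, ?_, ?_, ?_, ?_⟩
      · intro D' hD'
        rcases Finset.mem_insert.1 hD' with rfl | hD'
        · exact hPD
        · exact hn D' hD'
      · intro x
        constructor
        · intro hx D' hD'
          rcases Finset.mem_insert.1 hD' with rfl | hD'
          · exact (hDm x).2 hx
          · exact mem_B0.1 (h.A0 x hx) D' hD'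
        · intro hx; exact (hDm x).1 (hx D (Finset.mem_insert_self _ _))
      · intro x y hx hxy
        refine hL.single x y hx ?_ (fun D' hD' => hxy D' (Finset.mem_insert_of_mem hD'))
        have h1 := hxy D (Finset.mem_insert_self _ _)
        rw [hDm, hDm, hx] at h1
        simpa using h1
      · rw [e4]
        refine (B1.spl_iff hK (H := Q) Finset.subset_union_left).2 ⟨hL.spl, ?_⟩
        rw [eQ]; exact hL.spl'
      · rw [e4]
        intro c hc
        rcases Finset.mem_union.1 hc with hc | hc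
        · have h5 := (h.memQ c).1 hc
          exact ⟨h5.2.2.1, h5.2.2.2.1⟩
        · exact lab_F h hc
      · rw [e4]
        intro c hc
        rcases Finset.mem_union.1 hc with hc | hc
        · obtain ⟨a1, a2⟩ := hL.q c hc
          rw [bet_false] at a1
          rw [bet_true, mem_B0] at a2
          push Not at a2
          obtain ⟨D', hD', a3⟩ := a2
          exact ⟨D', Finset.mem_insert_of_mem hD', mem_B0.1 a1 D' hD', a3⟩
        · obtain ⟨D', hD', a3⟩ := hO c hc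
          exact ⟨D', Finset.mem_insert_of_mem hD', a3⟩

theorem optN (hK : K.IsCore) {P : E} (hP : s P = false) (hs : ∀ x y, K.same v x y → s x = s y)
    (hv : K.Valid u 𝒟) (hn : Nrm P 𝒟) (h : Dat K v u s 𝒟 Q Ps F') (z0 : E) (hz0 : s z0 = true)
    (hz0' : z0 ∈ B0 𝒟) (w : Finset X) (hwu : w ⊆ u) (D : Finset E) :
    (T K P v s u 𝒟 w D ∧ P ∉ D) ↔ (w = (v ∆ Q) ∆ F' ∧ D = (B0 𝒟).filter (fun x => s x = true) ∧
      LC (swap K) v Q Ps F' s (bet 𝒟) (Rel 𝒟) ∧ Ord K 𝒟 F') := by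
  obtain ⟨d1, d2, d3, d4, d5, d6⟩ := h.disj
  obtain ⟨e1, e2, e3, e4, e5, -, -, -, -, e6, -⟩ := sets d1 d2 d3 d4 d5 d6 h.cov
  have eQ : (Q ∪ F') \ Q = F' := Finset.union_sdiff_cancel_left d5
  constructor
  · rintro ⟨⟨h1, h2, h3, h4, h5, h6⟩, h7⟩
    have hX : K.Xi0 P v s w (rho D (insert D 𝒟)) := by
      rcases h6 with h6 | h6
      · exact absurd h6.1 h7
      · exact h6.2
    have hr := mem_rho h1 h2.1
    have hB : ∀ x, s x = false ↔ (x ∉ D ∧ x ∈ B0 𝒟) := by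
      intro x
      rw [hX.first, mem_B0]
      constructor
      · intro hx
        have h8 : x ∉ D := by
          have := hx Dᶜ ((hr _).2 (Or.inl rfl))
          simpa using this
        exact ⟨h8, fun D' hD' => (Finset.mem_sdiff.1 (hx (D' \ D) ((hr _).2 (Or.inr ⟨D', hD', rfl⟩)))).1⟩
      · rintro ⟨h8, h9⟩ D'' hD''
        rcases (hr _).1 hD'' with rfl | ⟨D', hD', rfl⟩
        · simpa using h8
        · exact Finset.mem_sdiff.2 ⟨h9 D' hD', h8⟩
    have hDm : ∀ x, x ∈ D ↔ (x ∈ B0 𝒟 ∧ s x = true) := by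
      intro x
      have h8 := hB x
      have h9 : x ∈ D → x ∈ B0 𝒟 := fun h' => h2.1 h'
      rcases hsx : s x with _ | _
      · rw [hsx] at h8; simp only [true_iff] at h8
        simp [h8.1]
      · rw [hsx] at h8; simp only [Bool.true_eq_false, false_iff] at h8
        simp only [and_true]
        exact ⟨h9, fun h' => by by_contra h''; exact h8 ⟨h'', h'⟩⟩
    have hD : D = (B0 𝒟).filter (fun x => s x = true) := by
      ext x; rw [hDm, Finset.mem_filter]
    have hhead : ∀ c ∈ u \ w, K.head c ∈ B0 𝒟 ∧ s (K.head c) = false := by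
      intro c hc
      obtain ⟨a1, a2, a3⟩ := h3 c hc
      have h8 : K.head c ∈ B0 𝒟 := by
        rw [mem_B0]
        exact fun D' hD' => (a1 D' hD').1 (mem_B0.1 (h2.1 a2) D' hD')
      exact ⟨h8, (hB _).2 ⟨a3, h8⟩⟩
    have hw : w = (v ∆ Q) ∆ F' := w_eq h hwu hX.sub hX.lab
      (fun c hc => Or.inr (hhead c hc).2)
    subst hw
    rw [e3] at h3 h4 hhead
    refine ⟨rfl, hD, ⟨?_, ?_, ?_, ?_, ?_, ?_⟩, ?_⟩
    · intro c hc
      obtain ⟨a1, a2, a3⟩ := h3 c hc
      rw [hDm] at a2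
      exact ⟨(hhead c hc).2, a2.2, bet_false.2 a2.1⟩
    · intro c hc
      obtain ⟨-, -, a1, a2, a3⟩ := (h.memQ c).1 hc
      obtain ⟨D'', hD'', b1, b2⟩ := hX.ord c (by rw [e4]; exact Finset.mem_union_left _ hc)
      show bet 𝒟 (K.tail c) = false ∧ bet 𝒟 (K.head c) = true
      rw [bet_false, bet_true]
      have b3 : K.head c ∉ B0 𝒟 := by
        intro h'
        have h8 : K.head c ∈ D := (hDm _).2 ⟨h', a2⟩
        rcases (hr _).1 hD'' with rfl | ⟨D', hD', rfl⟩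
        · exact (Finset.mem_compl.1 b1) h8
        · exact (Finset.mem_sdiff.1 b1).2 h8
      exact ⟨a3.resolve_right b3, b3⟩
    · show K.num _ + _ = K.num _
      rw [e1]; exact h4
    · intro x y hx hy hxy
      have h8 : x ∈ D ↔ y ∈ D := by
        have := rel_bet hxy
        rw [hDm, hDm, hx, hy, ← bet_false, ← bet_false, this]
      refine hX.single x y hx (fun D'' hD'' => ?_)
      rcases (hr _).1 hD'' with rfl | ⟨D', hD', rfl⟩
      · rw [Finset.mem_compl, Finset.mem_compl, h8]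
      · rw [Finset.mem_sdiff, Finset.mem_sdiff, h8, hxy D' hD']
    · have h8 := hX.spl
      rw [e4] at h8
      exact ((B1.spl_iff hK (H := Q) Finset.subset_union_left).1 h8).1
    · have h8 := hX.spl
      rw [e4] at h8
      have h9 := ((B1.spl_iff hK (H := Q) Finset.subset_union_left).1 h8).2
      rw [eQ] at h9
      exact h9
    · intro c hc
      obtain ⟨D'', hD'', b1, b2⟩ := hX.ord c (by rw [e4]; exact Finset.mem_union_right _ hc)
      obtain ⟨-, -, g1, g2⟩ := (h.memF c).1 hc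
      have g3 : K.tail c ∉ D := fun h' => g1 ((hDm _).1 h').1
      rcases (hr _).1 hD'' with rfl | ⟨D', hD', rfl⟩
      · exact absurd (Finset.mem_compl.2 g3) b2
      · refine ⟨D', hD', (Finset.mem_sdiff.1 b1).1, fun h' => b2 (Finset.mem_sdiff.2 ⟨h', g3⟩)⟩
  · rintro ⟨rfl, hD, hL, hO⟩
    have hLps : ∀ c ∈ Ps, s (K.head c) = false ∧ s (K.tail c) = true ∧ bet 𝒟 (K.tail c) = false :=
      hL.ps
    have hLq : ∀ c ∈ Q, bet 𝒟 (K.tail c) = false ∧ bet 𝒟 (K.head c) = true := hL.q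
    have hDm : ∀ x, x ∈ D ↔ (x ∈ B0 𝒟 ∧ s x = true) := by
      intro x; rw [hD, Finset.mem_filter]
    have hPD : P ∉ D := by rw [hDm, hP]; simp
    have hPB : P ∈ B0 𝒟 := mem_B0.2 hn
    have hzD : z0 ∈ D := (hDm _).2 ⟨hz0', hz0⟩
    have hDB : D ⊆ B0 𝒟 := fun x hx => ((hDm x).1 hx).1
    have hDn : D ∉ 𝒟 := fun h' => hPD (hn D h')
    have hr := mem_rho hDn hDB
    have hPs : ∀ c ∈ Ps, K.tail c ∈ B0 𝒟 ∧ K.head c ∈ B0 𝒟 := fun c hc =>
      ⟨bet_false.1 (hLps c hc).2.2, h.A0 _ (hLps c hc).1⟩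
    obtain ⟨f1, f2⟩ := w0facts hK hs hv h hPs
    have f3 : ∀ x y, K.same ((v ∆ Q) ∆ F') x y → (x ∈ D ↔ y ∈ D) := by
      intro x y hxy
      rw [hDm, hDm, f1 x y hxy, mem_B0, mem_B0]
      constructor
      · rintro ⟨h1, h2⟩; exact ⟨fun D' hD' => (f2 D' hD' x y hxy).1 (h1 D' hD'), h2⟩
      · rintro ⟨h1, h2⟩; exact ⟨fun D' hD' => (f2 D' hD' x y hxy).2 (h1 D' hD'), h2⟩
    have hval : K.Valid ((v ∆ Q) ∆ F') (insert D 𝒟) :=
      valid_ins (fun D' hD' => ⟨hv.ne D' hD', hv.top D' hD', f2 D' hD'⟩) hv.chain hDB ⟨z0, hzD⟩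
        (fun h' => hPD (h' ▸ Finset.mem_univ _)) f3
    refine ⟨⟨hDn, ⟨hDB, fun h' => hPD (h' hPB)⟩, ?_, ?_, hval,
      Or.inr ⟨hPD, ?_⟩⟩, hPD⟩
    · rw [e3]
      intro c hc
      refine ⟨fun D' hD' => ⟨fun _ => mem_B0.1 (hPs c hc).2 D' hD',
        fun _ => mem_B0.1 (hPs c hc).1 D' hD'⟩, (hDm _).2 ⟨(hPs c hc).1, (hLps c hc).2.1⟩, ?_⟩
      rw [hDm, (hLps c hc).1]; simp
    · have : K.num (((v ∆ Q) ∆ Ps) ∆ F') + Ps.card = K.num ((v ∆ Q) ∆ F') := hL.num
      rw [e3]; rw [e1] at this; exact this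
    · refine ⟨e5, ⟨?_, ?_, ?_, ?_⟩, ?_, ?_, ?_, ?_, ?_, ?_⟩
      · intro D'' hD''
        rcases (hr _).1 hD'' with rfl | ⟨D', hD', rfl⟩
        · exact ⟨P, Finset.mem_compl.2 hPD⟩
        · exact ⟨P, Finset.mem_sdiff.2 ⟨hn D' hD', hPD⟩⟩
      · intro D'' hD'' h'
        have hz := Finset.mem_univ z0
        rw [← h'] at hz
        rcases (hr _).1 hD'' with rfl | ⟨D', hD', rfl⟩
        · exact (Finset.mem_compl.1 hz) hzD
        · exact (Finset.mem_sdiff.1 hz).2 hzD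
      · intro D'' hD'' x y hxy
        rcases (hr _).1 hD'' with rfl | ⟨D', hD', rfl⟩
        · rw [Finset.mem_compl, Finset.mem_compl, f3 x y hxy]
        · rw [Finset.mem_sdiff, Finset.mem_sdiff, f3 x y hxy, f2 D' hD' x y hxy]
      · intro D1 h1 D2 h2
        rcases (hr _).1 h1 with rfl | ⟨D1', h1', rfl⟩ <;>
          rcases (hr _).1 h2 with rfl | ⟨D2', h2', rfl⟩
        · exact Or.inl (Finset.Subset.refl _)
        · refine Or.inr (fun x hx => Finset.mem_compl.2 (Finset.mem_sdiff.1 hx).2)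
        · refine Or.inl (fun x hx => Finset.mem_compl.2 (Finset.mem_sdiff.1 hx).2)
        · rcases hv.chain D1' h1' D2' h2' with h' | h'
          · exact Or.inl (Finset.sdiff_subset_sdiff h' (Finset.Subset.refl _))
          · exact Or.inr (Finset.sdiff_subset_sdiff h' (Finset.Subset.refl _))
      · intro D'' hD''
        rcases (hr _).1 hD'' with rfl | ⟨D', hD', rfl⟩
        · exact Finset.mem_compl.2 hPD
        · exact Finset.mem_sdiff.2 ⟨hn D' hD', hPD⟩
      · intro x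
        constructor
        · intro hx D'' hD''
          have h8 : x ∉ D := by rw [hDm, hx]; simp
          rcases (hr _).1 hD'' with rfl | ⟨D', hD', rfl⟩
          · exact Finset.mem_compl.2 h8
          · exact Finset.mem_sdiff.2 ⟨mem_B0.1 (h.A0 x hx) D' hD', h8⟩
        · intro hx
          have h8 : x ∉ D := Finset.mem_compl.1 (hx _ ((hr _).2 (Or.inl rfl)))
          have h9 : x ∈ B0 𝒟 := mem_B0.2 fun D' hD' =>
            (Finset.mem_sdiff.1 (hx (D' \ D) ((hr _).2 (Or.inr ⟨D', hD', rfl⟩)))).1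
          by_contra h'
          exact h8 ((hDm x).2 ⟨h9, by simpa using h'⟩)
      · intro x y hx hxy
        have g1 : x ∈ D ↔ y ∈ D := by
          have := hxy Dᶜ ((hr _).2 (Or.inl rfl))
          rw [Finset.mem_compl, Finset.mem_compl] at this
          exact not_iff_not.1 this
        -- same membership for all `D'`
        have g2 : Rel 𝒟 x y := by
          intro D' hD'
          have := hxy (D' \ D) ((hr _).2 (Or.inr ⟨D', hD', rfl⟩))
          rw [Finset.mem_sdiff, Finset.mem_sdiff] at this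
          by_cases h8 : x ∈ D
          · exact ⟨fun _ => mem_B0.1 (hDB (g1.1 h8)) D' hD', fun _ => mem_B0.1 (hDB h8) D' hD'⟩
          · have h9 : y ∉ D := fun h' => h8 (g1.2 h')
            simpa [h8, h9] using this
        have g3 : s y = true := by
          by_contra h'
          have h'' : s y = false := by simpa using h'
          have h8 : y ∈ B0 𝒟 := h.A0 y h''
          have h9 : x ∈ B0 𝒟 := by rw [← bet_false, rel_bet g2, bet_false]; exact h8
          have h10 := ((hDm y).1 (g1.1 ((hDm x).2 ⟨h9, hx⟩))).2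
          exact h' h10
        exact hL.single x y hx g3 g2
      · rw [e4]
        refine (B1.spl_iff hK (H := Q) Finset.subset_union_left).2 ⟨hL.spl, ?_⟩
        rw [eQ]; exact hL.spl'
      · rw [e4]
        intro c hc
        rcases Finset.mem_union.1 hc with hc | hc
        · have h5 := (h.memQ c).1 hc
          exact ⟨h5.2.2.1, h5.2.2.2.1⟩
        · exact lab_F h hc
      · rw [e4]
        intro c hc
        rcases Finset.mem_union.1 hc with hc | hc
        · obtain ⟨a1, a2⟩ := hLq c hc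
          rw [bet_false] at a1
          rw [bet_true] at a2
          refine ⟨Dᶜ, (hr _).2 (Or.inl rfl), Finset.mem_compl.2 (fun h' => a2 (hDB h')), ?_⟩
          intro h'
          exact (Finset.mem_compl.1 h') ((hDm _).2 ⟨a1, ((h.memQ c).1 hc).2.2.1⟩)
        · obtain ⟨D', hD', a3, a4⟩ := hO c hc
          refine ⟨D' \ D, (hr _).2 (Or.inr ⟨D', hD', rfl⟩), Finset.mem_sdiff.2 ⟨a3, ?_⟩,
            fun h' => a4 (Finset.mem_sdiff.1 h').1⟩
          exact fun h' => ((h.memF c).1 hc).2.2.2 (hDB h')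

theorem rhs (a : K.Gen) (hv : K.Valid u 𝒟) {P : E} (hn : Nrm P 𝒟)
    (h : Dat K a.v u a.s 𝒟 Q Ps F') (w : Finset X) :
    (∃ b : K.Gen, b.v = w ∧ a.v ⊂ w ∧ (K.Star K.tail K.head a b ∨ K.Star K.head K.tail a b) ∧
      K.Xi0 P b.v b.s u 𝒟) ↔ (w = (a.v ∆ Q) ∆ Ps ∧ (Q ∪ Ps).Nonempty ∧
      (RC K a.v Q Ps F' a.s (bet 𝒟) (Rel 𝒟) ∨ RC (swap K) a.v Q Ps F' a.s (bet 𝒟) (Rel 𝒟)) ∧
      Ord K 𝒟 F') := by
  obtain ⟨d1, d2, d3, d4, d5, d6⟩ := h.disj
  obtain ⟨e1, -, -, -, -, e2, e3, e4, e5, -, e6⟩ := sets d1 d2 d3 d4 d5 d6 h.cov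
  constructor
  · rintro ⟨b, rfl, hav, hst, hX⟩
    have hb : b.s = bet 𝒟 := by
      funext x
      have h1 := hX.first x
      rw [← mem_B0, ← bet_false] at h1
      rcases h2 : b.s x with _ | _
      · exact (h1.1 h2).symm
      · rcases h3 : bet 𝒟 x with _ | _
        · rw [h1.2 h3] at h2; exact absurd h2 (by simp)
        · rfl
    -- one end of every star arc is in the first block
    have hend : ∀ c ∈ b.v \ a.v, K.tail c ∈ B0 𝒟 ∨ K.head c ∈ B0 𝒟 := by
      intro c hc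
      rcases hst with ⟨z, hz, hz3, h4, -⟩ | ⟨z, hz, hz3, h4, -⟩
      · right
        have h5 : a.s (K.head c) ≠ b.s (K.head c) := (hz3 _).2 ⟨(h4 c hc).1, (h4 c hc).2.1⟩
        have h6 := a.inv _ _ (h4 c hc).1
        rw [← bet_false, ← hb]
        rw [h6, hz] at h5
        by_contra h'
        exact h5 (by symm; simpa using h')
      · left
        have h5 : a.s (K.tail c) ≠ b.s (K.tail c) := (hz3 _).2 ⟨(h4 c hc).1, (h4 c hc).2.1⟩
        have h6 := a.inv _ _ (h4 c hc).1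
        rw [← bet_false, ← hb]
        rw [h6, hz] at h5
        by_contra h'
        exact h5 (by symm; simpa using h')
    have hw : b.v = (a.v ∆ Q) ∆ Ps := by
      ext c
      rw [e6]
      constructor
      · intro hc
        rcases (h.cov c).1 (hX.sub hc) with h' | h' | h' | h'
        · exact Or.inl h'
        · exact Or.inr (Or.inl h')
        · exact Or.inr (Or.inr h')
        · obtain ⟨-, g0, g1, g2⟩ := (h.memF c).1 h'
          rcases hend c (Finset.mem_sdiff.2 ⟨hc, g0⟩) with h'' | h''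
          · exact absurd h'' g1
          · exact absurd h'' g2
      · rintro (hc | hc | hc)
        · exact hav.1 hc
        · by_contra hcw
          obtain ⟨g0, -, -, -, g1⟩ := (h.memQ c).1 hc
          have h7 := hX.lab c (Finset.mem_sdiff.2 ⟨g0, hcw⟩)
          rw [hb, bet_true, bet_true] at h7
          rcases g1 with g1 | g1
          · exact h7.1 g1
          · exact h7.2 g1
        · by_contra hcw
          obtain ⟨g0, -, g1⟩ := (h.memP c).1 hc
          have h7 := hX.lab c (Finset.mem_sdiff.2 ⟨g0, hcw⟩)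
          rw [hb, bet_true, bet_true] at h7
          rcases g1 with g1 | g1
          · exact h7.1 (h.A0 _ g1)
          · exact h7.2 (h.A0 _ g1)
    have hdiff : b.v \ a.v = Q ∪ Ps := by rw [hw, e4]
    have hinv : ∀ x y, K.same ((a.v ∆ Q) ∆ Ps) x y → bet 𝒟 x = bet 𝒟 y := by
      rw [← hw, ← hb]; exact b.inv
    have hsing : ∀ x y, bet 𝒟 x = true → Rel 𝒟 x y → K.same (((a.v ∆ Q) ∆ Ps) ∆ F') x y := by
      rw [e1, ← hb]; exact hX.single
    have hspl : K.Spl ((a.v ∆ Q) ∆ Ps) F' := by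
      have := hX.spl
      rw [hw, e3] at this
      exact this
    refine ⟨hw, ?_, ?_, ?_⟩
    · rw [← hdiff]
      obtain ⟨c, hc⟩ := Finset.exists_of_ssubset hav
      exact ⟨c, Finset.mem_sdiff.2 hc⟩
    · rcases hst with hst | hst
      · left
        refine ⟨hinv, ?_, hsing, hspl⟩
        unfold Cube.Star at hst
        rw [hdiff, hb, hw] at hst
        exact hst
      · right
        refine ⟨hinv, ?_, hsing, hspl⟩
        unfold Cube.Star at hst
        rw [hdiff, hb, hw] at hst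
        exact hst
    · intro c hc
      have : c ∈ u \ b.v := by rw [hw, e3]; exact hc
      exact hX.ord c this
  · rintro ⟨rfl, hne, hR, hO⟩
    have hinv : ∀ x y, K.same ((a.v ∆ Q) ∆ Ps) x y → bet 𝒟 x = bet 𝒟 y := by
      rcases hR with hR | hR
      · exact hR.inv
      · exact hR.inv
    have hsing : ∀ x y, bet 𝒟 x = true → Rel 𝒟 x y → K.same (((a.v ∆ Q) ∆ Ps) ∆ F') x y := by
      rcases hR with hR | hR
      · exact hR.single
      · exact hR.single
    have hspl : K.Spl ((a.v ∆ Q) ∆ Ps) F' := by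
      rcases hR with hR | hR
      · exact hR.spl
      · exact hR.spl
    refine ⟨⟨(a.v ∆ Q) ∆ Ps, bet 𝒟, hinv⟩, rfl, ?_, ?_, ?_⟩
    · refine ⟨e5, fun h' => ?_⟩
      obtain ⟨c, hc⟩ := hne
      rw [← e4] at hc
      exact (Finset.mem_sdiff.1 hc).2 (h' (Finset.mem_sdiff.1 hc).1)
    · rcases hR with hR | hR
      · left
        have := hR.star
        unfold Cube.Star
        dsimp only
        rw [e4]
        exact this
      · right
        have := hR.star
        unfold Cube.Star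
        dsimp only
        rw [e4]
        exact this
    · refine ⟨e2, hv, hn, ?_, ?_, ?_, ?_, ?_⟩
      · intro x
        show bet 𝒟 x = false ↔ _
        rw [bet_false, mem_B0]
      · rw [e1] at hsing; exact hsing
      · show K.Spl ((a.v ∆ Q) ∆ Ps) (u \ ((a.v ∆ Q) ∆ Ps))
        rw [e3]; exact hspl
      · show ∀ c ∈ u \ ((a.v ∆ Q) ∆ Ps), bet 𝒟 (K.tail c) = true ∧ bet 𝒟 (K.head c) = true
        rw [e3]
        intro c hc
        rw [bet_true, bet_true]
        exact ((h.memF c).1 hc).2.2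
      · show ∀ c ∈ u \ ((a.v ∆ Q) ∆ Ps), _
        rw [e3]
        exact hO

theorem T_cond {P : E} {w : Finset X} {D : Finset E} (hwu : w ⊆ u) (h : T K P v s u 𝒟 w D) :
    v ⊆ u ∧ (∀ x, s x = false → x ∈ B0 𝒟) ∧ ∃ z0, s z0 = true ∧ z0 ∈ B0 𝒟 := by
  obtain ⟨h1, h2, h3, h4, h5, h6⟩ := h
  rcases h6 with ⟨h6, hX⟩ | ⟨h6, hX⟩
  · refine ⟨hX.sub.trans hwu, ?_, ?_⟩
    · intro x hx
      rw [mem_B0]
      exact fun D' hD' => (hX.first x).1 hx D' (Finset.mem_insert_of_mem hD')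
    · obtain ⟨z, hz, hz'⟩ := Finset.exists_of_ssubset h2
      refine ⟨z, ?_, hz⟩
      by_contra h'
      exact hz' ((hX.first z).1 (by simpa using h') D (Finset.mem_insert_self _ _))
  · have hr := mem_rho h1 h2.1
    refine ⟨hX.sub.trans hwu, ?_, ?_⟩
    · intro x hx
      rw [mem_B0]
      intro D' hD'
      exact (Finset.mem_sdiff.1 ((hX.first x).1 hx (D' \ D) ((hr _).2 (Or.inr ⟨D', hD', rfl⟩)))).1
    · obtain ⟨z, hz⟩ := h5.ne D (Finset.mem_insert_self _ _)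
      refine ⟨z, ?_, h2.1 hz⟩
      by_contra h'
      exact (Finset.mem_compl.1 ((hX.first z).1 (by simpa using h') Dᶜ ((hr _).2 (Or.inl rfl)))) hz

theorem R_cond {P : E} (a b : K.Gen) (hav : a.v ⊂ b.v)
    (hst : K.Star K.tail K.head a b ∨ K.Star K.head K.tail a b) (hX : K.Xi0 P b.v b.s u 𝒟) :
    a.v ⊆ u ∧ (∀ x, a.s x = false → x ∈ B0 𝒟) ∧ ∃ z0, a.s z0 = true ∧ z0 ∈ B0 𝒟 := by
  obtain ⟨z, hz, hz3⟩ : ∃ z : E, a.s z = true ∧
    (∀ x, a.s x ≠ b.s x ↔ (K.same a.v x z ∧ K.same b.v x z)) := by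
    rcases hst with ⟨z, hz, hz3, -⟩ | ⟨z, hz, hz3, -⟩
    · exact ⟨z, hz, hz3⟩
    · exact ⟨z, hz, hz3⟩
  have hk : ∀ x, a.s x ≠ b.s x → a.s x = true := by
    intro x hx
    rw [a.inv _ _ ((hz3 x).1 hx).1, hz]
  refine ⟨hav.1.trans hX.sub, ?_, ?_⟩
  · intro x hx
    rw [mem_B0, ← hX.first]
    by_contra h'
    have := hk x (by rw [hx]; intro h''; exact h' h''.symm)
    rw [hx] at this
    exact absurd this (by simp)
  · by_cases hd : ∃ x, a.s x ≠ b.s x
    · obtain ⟨x, hx⟩ := hd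
      refine ⟨x, hk x hx, ?_⟩
      rw [mem_B0, ← hX.first]
      rw [hk x hx] at hx
      by_contra h'
      exact hx (by symm; simpa using h')
    · exfalso
      push Not at hd
      obtain ⟨c, hc⟩ := Finset.exists_of_ssubset hav
      have hc' : c ∈ b.v \ a.v := Finset.mem_sdiff.2 hc
      rcases hst with ⟨z, -, hz3, h4, -⟩ | ⟨z, -, hz3, h4, -⟩
      · exact (hz3 (K.head c)).2 ⟨(h4 c hc').1, (h4 c hc').2.1⟩ (hd _)
      · exact (hz3 (K.tail c)).2 ⟨(h4 c hc').1, (h4 c hc').2.1⟩ (hd _)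

theorem sum2 {S : Finset (Finset X)} {w0 : Finset X} (hw : w0 ∈ S) (D0 : Finset E) (p : Prop)
    [Decidable p] [∀ w D, Decidable (w = w0 ∧ D = D0 ∧ p)] :
    (∑ w ∈ S, ∑ D : Finset E, if w = w0 ∧ D = D0 ∧ p then (1 : ZMod 2) else 0) =
      if p then 1 else 0 := by
  rw [Finset.sum_eq_single w0]
  · rw [Finset.sum_eq_single D0]
    · simp
    · intro D _ hD; simp [hD]
    · intro h; exact absurd (Finset.mem_univ _) h
  · intro w _ hw'
    simp [hw']
  · intro h; exact absurd hw h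

theorem sum1 {S : Finset (Finset X)} {w0 : Finset X} (hw : w0 ∈ S) (p : Prop)
    [Decidable p] [∀ w, Decidable (w = w0 ∧ p)] :
    (∑ w ∈ S, if w = w0 ∧ p then (1 : ZMod 2) else 0) = if p then 1 else 0 := by
  rw [Finset.sum_eq_single w0]
  · simp
  · intro w _ hw'
    simp [hw']
  · intro h; exact absurd hw h

open Classical in
theorem outer (hK : K.IsCore) (P : E) (a : K.Gen) (hP : a.s P = false) (u : Finset X)
    (𝒟 : Finset (Finset E)) (hv : K.Valid u 𝒟) (hn : Nrm P 𝒟) :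
    (∑ w ∈ u.powerset, ∑ D : Finset E, if D ∉ 𝒟 ∧ D ⊂ B0 𝒟 ∧
        (∀ c ∈ u \ w, K.Nsep 𝒟 c ∧ K.tail c ∈ D ∧ K.head c ∉ D) ∧
        K.num u + (u \ w).card = K.num w ∧ K.Valid w (insert D 𝒟) ∧
        ((P ∈ D ∧ K.Xi0 P a.v a.s w (insert D 𝒟)) ∨
         (P ∉ D ∧ K.Xi0 P a.v a.s w (rho D (insert D 𝒟)))) then (1 : ZMod 2) else 0) =
    ∑ w ∈ u.powerset, if ∃ b : K.Gen, b.v = w ∧ a.v ⊂ w ∧
        (K.Star K.tail K.head a b ∨ K.Star K.head K.tail a b) ∧
        K.Xi0 P b.v b.s u 𝒟 then (1 : ZMod 2) else 0 := by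
  have hL : (∑ w ∈ u.powerset, ∑ D : Finset E, if D ∉ 𝒟 ∧ D ⊂ B0 𝒟 ∧
        (∀ c ∈ u \ w, K.Nsep 𝒟 c ∧ K.tail c ∈ D ∧ K.head c ∉ D) ∧
        K.num u + (u \ w).card = K.num w ∧ K.Valid w (insert D 𝒟) ∧
        ((P ∈ D ∧ K.Xi0 P a.v a.s w (insert D 𝒟)) ∨
         (P ∉ D ∧ K.Xi0 P a.v a.s w (rho D (insert D 𝒟)))) then (1 : ZMod 2) else 0) =
      ∑ w ∈ u.powerset, ∑ D : Finset E,
        if T K P a.v a.s u 𝒟 w D then (1 : ZMod 2) else 0 :=
    Finset.sum_congr rfl (fun w _ => Finset.sum_congr rfl (fun D _ => if_congr Iff.rfl rfl rfl))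
  rw [hL]
  by_cases hC : a.v ⊆ u ∧ (∀ x, a.s x = false → x ∈ B0 𝒟) ∧ ∃ z0, a.s z0 = true ∧ z0 ∈ B0 𝒟
  swap
  · rw [Finset.sum_eq_zero, Finset.sum_eq_zero]
    · intro w hw
      rw [if_neg]
      rintro ⟨b, rfl, hav, hst, hX⟩
      exact hC (R_cond a b hav hst hX)
    · intro w hw
      rw [Finset.sum_eq_zero]
      intro D _
      rw [if_neg]
      intro h
      exact hC (T_cond (Finset.mem_powerset.1 hw) h)
  obtain ⟨hsub, hA0, z0, hz0, hz0'⟩ := hC
  obtain ⟨Q, hQ⟩ : ∃ Q : Finset X, Q = u.filter (fun c => c ∉ a.v ∧ a.s (K.tail c) = true ∧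
    a.s (K.head c) = true ∧ (K.tail c ∈ B0 𝒟 ∨ K.head c ∈ B0 𝒟)) := ⟨_, rfl⟩
  obtain ⟨Ps, hPs⟩ : ∃ Ps : Finset X, Ps = u.filter (fun c => c ∉ a.v ∧
    (a.s (K.tail c) = false ∨ a.s (K.head c) = false)) := ⟨_, rfl⟩
  obtain ⟨F', hF'⟩ : ∃ F' : Finset X, F' = u.filter (fun c => c ∉ a.v ∧
    K.tail c ∉ B0 𝒟 ∧ K.head c ∉ B0 𝒟) := ⟨_, rfl⟩
  have h : Dat K a.v u a.s 𝒟 Q Ps F' := by
    refine ⟨hsub, hA0, ?_, ?_, ?_⟩
    · intro c; rw [hQ, Finset.mem_filter]
    · intro c; rw [hPs, Finset.mem_filter]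
    · intro c; rw [hF', Finset.mem_filter]
  obtain ⟨d1, d2, d3, d4, d5, d6⟩ := h.disj
  obtain ⟨e1, e2, -, -, -, e3, -⟩ := sets d1 d2 d3 d4 d5 d6 h.cov
  have c1 : ∀ x, a.s x = false → bet 𝒟 x = false := fun x hx => bet_false.2 (hA0 x hx)
  have c2 : ∀ c ∈ F', bet 𝒟 (K.tail c) = true ∧ bet 𝒟 (K.head c) = true := fun c hc =>
    ⟨bet_true.2 ((h.memF c).1 hc).2.2.1, bet_true.2 ((h.memF c).1 hc).2.2.2⟩
  have c3 : ∀ c ∈ Q, a.s (K.tail c) = true ∧ a.s (K.head c) = true := fun c hc =>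
    ⟨((h.memQ c).1 hc).2.2.1, ((h.memQ c).1 hc).2.2.2.1⟩
  have c4 : ∀ c ∈ Ps, a.s (K.tail c) = false ∨ a.s (K.head c) = false := fun c hc =>
    ((h.memP c).1 hc).2.2
  have c5 : ∀ x y, K.same (((a.v ∆ Q) ∆ Ps) ∆ F') x y → bet 𝒟 x = bet 𝒟 y := by
    rw [e1]
    exact fun x y hxy => rel_bet (fun D hD => hv.sat D hD x y hxy)
  have LR1 : LC K a.v Q Ps F' a.s (bet 𝒟) (Rel 𝒟) ↔ RC K a.v Q Ps F' a.s (bet 𝒟) (Rel 𝒟) :=
    ⟨core1 hK a.v Q Ps F' a.s (bet 𝒟) a.inv c1 c2 c3 c5 z0 hz0 (bet_false.2 hz0') (Rel 𝒟)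
      (fun _ _ => rel_bet) (fun _ _ => rel_of),
     core2 hK a.v Q Ps F' a.s (bet 𝒟) a.inv c1 c2 c4 c3 (Rel 𝒟) (fun _ _ => rel_bet)⟩
  have LR2 : LC (swap K) a.v Q Ps F' a.s (bet 𝒟) (Rel 𝒟) ↔
      RC (swap K) a.v Q Ps F' a.s (bet 𝒟) (Rel 𝒟) :=
    ⟨core1 (swap_core hK) a.v Q Ps F' a.s (bet 𝒟) a.inv c1 (fun c hc => (c2 c hc).symm)
      (fun c hc => (c3 c hc).symm) c5 z0 hz0 (bet_false.2 hz0') (Rel 𝒟)
      (fun _ _ => rel_bet) (fun _ _ => rel_of),
     core2 (swap_core hK) a.v Q Ps F' a.s (bet 𝒟) a.inv c1 (fun c hc => (c2 c hc).symm)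
      (fun c hc => (c4 c hc).symm) (fun c hc => (c3 c hc).symm) (Rel 𝒟) (fun _ _ => rel_bet)⟩
  have hA : (∑ w ∈ u.powerset, ∑ D : Finset E,
        if T K P a.v a.s u 𝒟 w D then (1 : ZMod 2) else 0) =
      (if LC K a.v Q Ps F' a.s (bet 𝒟) (Rel 𝒟) ∧ Ord K 𝒟 F' then 1 else 0) +
      (if LC (swap K) a.v Q Ps F' a.s (bet 𝒟) (Rel 𝒟) ∧ Ord K 𝒟 F' then 1 else 0) := by
    rw [← sum2 (Finset.mem_powerset.2 e2) (Finset.univ.filter (fun x => a.s x = false)),
      ← sum2 (Finset.mem_powerset.2 e2) ((B0 𝒟).filter (fun x => a.s x = true)),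
      ← Finset.sum_add_distrib]
    refine Finset.sum_congr rfl (fun w hw => ?_)
    rw [← Finset.sum_add_distrib]
    refine Finset.sum_congr rfl (fun D _ => ?_)
    have o1 := optP hK hP a.inv hv hn h z0 hz0 hz0' w (Finset.mem_powerset.1 hw) D
    have o2 := optN hK hP a.inv hv hn h z0 hz0 hz0' w (Finset.mem_powerset.1 hw) D
    rw [if_congr o1.symm rfl rfl, if_congr o2.symm rfl rfl]
    by_cases hPD : P ∈ D
    · simp [hPD]
    · simp [hPD]
  have hB : (∑ w ∈ u.powerset, if ∃ b : K.Gen, b.v = w ∧ a.v ⊂ w ∧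
        (K.Star K.tail K.head a b ∨ K.Star K.head K.tail a b) ∧
        K.Xi0 P b.v b.s u 𝒟 then (1 : ZMod 2) else 0) =
      if ((Q ∪ Ps).Nonempty ∧
      (RC K a.v Q Ps F' a.s (bet 𝒟) (Rel 𝒟) ∨ RC (swap K) a.v Q Ps F' a.s (bet 𝒟) (Rel 𝒟)) ∧
      Ord K 𝒟 F') then 1 else 0 := by
    rw [← sum1 (Finset.mem_powerset.2 e3)]
    refine Finset.sum_congr rfl (fun w hw => ?_)
    exact if_congr (rhs a hv hn h w) rfl rfl
  rw [hA, hB]
  by_cases hO : Ord K 𝒟 F'
  swap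
  · simp [hO]
  simp only [hO, and_true]
  by_cases hne : (Q ∪ Ps).Nonempty
  · simp only [hne, true_and]
    have hex : ¬ (LC K a.v Q Ps F' a.s (bet 𝒟) (Rel 𝒟) ∧
        LC (swap K) a.v Q Ps F' a.s (bet 𝒟) (Rel 𝒟)) := by
      rintro ⟨l1, l2⟩
      obtain ⟨c, hc⟩ := hne
      rcases Finset.mem_union.1 hc with hc | hc
      · have g1 := (l1.q c hc).1
        have g2 : bet 𝒟 (K.head c) = true := (l2.q c hc).2
        rw [g2] at g1; exact absurd g1 (by simp)
      · have g1 := (l1.ps c hc).1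
        have g2 : a.s (K.tail c) = true := (l2.ps c hc).2.1
        rw [g2] at g1; exact absurd g1 (by simp)
    rw [← LR1, ← LR2]
    by_cases l1 : LC K a.v Q Ps F' a.s (bet 𝒟) (Rel 𝒟)
    · have l2 : ¬ LC (swap K) a.v Q Ps F' a.s (bet 𝒟) (Rel 𝒟) := fun h' => hex ⟨l1, h'⟩
      simp [l1, l2]
    · by_cases l2 : LC (swap K) a.v Q Ps F' a.s (bet 𝒟) (Rel 𝒟)
      · simp [l1, l2]
      · simp [l1, l2]
  · simp only [hne, false_and, if_false]
    rw [Finset.not_nonempty_iff_eq_empty, Finset.union_eq_empty] at hne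
    obtain ⟨q1, q2⟩ := hne
    have hiff : LC K a.v Q Ps F' a.s (bet 𝒟) (Rel 𝒟) ↔
        LC (swap K) a.v Q Ps F' a.s (bet 𝒟) (Rel 𝒟) := by
      constructor
      · intro l
        exact ⟨by rw [q2]; simp, by rw [q1]; simp, l.num, l.single, l.spl, l.spl'⟩
      · intro l
        exact ⟨by rw [q2]; simp, by rw [q1]; simp, l.num, l.single, l.spl, l.spl'⟩
    rw [if_congr hiff.symm rfl rfl]
    exact CharTwo.add_self_eq_zero _

end main

end C2
end Pool.Agent.helper20.Sz
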